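import Pool.Agent.Helper740.D5.Special

/-! `d > 0` -/

set_option autoImplicit false
set_option linter.all false
set_option linter.overlappingInstances false

open Module FF SF Step

namespace Pool.Agent.Helper740.C3

theorem eq_zero_of_ddeg {Ω M : Type} [Field Ω] [Field M] [Algebra Ω M] [CharZero Ω] [IsFF Ω M]
    {D : Place Ω M →₀ ℤ} (h0 : 0 ≤ D) (h : ddeg D ≤ 0) : D = 0 := by
  by_contra hD
  obtain ⟨P, hP⟩ : ∃ P, D P ≠ 0 := by
    by_contra h1
    push Not at h1
    exact hD (Finsupp.ext h1)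
  have hP1 : 1 ≤ D P := by
    have := h0 P
    simp only [Finsupp.coe_zero, Pi.zero_apply] at this
    omega
  have h2 : Finsupp.single P 1 ≤ D := by
    classical
    intro Q
    rw [Finsupp.single_apply]
    split_ifs with hPQ
    · rw [← hPQ]; exact hP1
    · exact h0 Q
  have h3 := ddeg_mono h2
  rw [ddeg_single] at h3
  have h4 := P.deg_pos
  have h5 : (0 : ℤ) < P.deg := by exact_mod_cast h4
  omega

theorem d_pos {F Ω L M : Type} [Field F] [Field Ω] [Algebra F Ω] [Field L] [Algebra F L] [Field M]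
    [Algebra Ω M] [Algebra L M] [IsAlgClosed Ω] [CharZero Ω] [CharZero F] [IsFF Ω M]
    (m : Model F Ω L M) (z x a : F) (hz : IsPrimitiveRoot z 3) (hx : x ≠ 0) (ha : a ≠ 0)
    (hns : ¬ Sp F a x) (g0 g1 g2 : L) (hg : N3 (algebraMap F L a) g0 g1 g2 = algebraMap F L x)
    (al : Ω) (hal : al ^ 3 = algebraMap F Ω a) :
    0 < ddeg (DD (Ω := Ω) (M := M) (cj al g0 g1 g2) (cj (algebraMap F Ω z * al) g0 g1 g2)) := by
  classical
  by_contra hneg
  push Not at hneg
  have hal0 : al ≠ 0 := by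
    intro h
    rw [h, zero_pow (by norm_num)] at hal
    exact ha ((map_eq_zero (algebraMap F Ω)).1 hal.symm)
  set A : M := algebraMap Ω M al with hA
  set ζ : M := algebraMap Ω M (algebraMap F Ω z) with hζdef
  have hA0 : A ≠ 0 := by rw [hA, Ne, map_eq_zero]; exact hal0
  have hzrel : z ^ 2 + z + 1 = 0 := by
    have h2 : (z - 1) * (z ^ 2 + z + 1) = 0 := by linear_combination hz.pow_eq_one
    rcases mul_eq_zero.1 h2 with h3 | h3
    · exact absurd (sub_eq_zero.1 h3) (hz.ne_one (by norm_num))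
    · exact h3
  have hζ : ζ ^ 2 + ζ + 1 = 0 := by
    have h2 := congrArg (fun t => algebraMap Ω M (algebraMap F Ω t)) hzrel
    simpa using h2
  set G0 : M := cj al g0 g1 g2 with hG0
  set G1 : M := cj (algebraMap F Ω z * al) g0 g1 g2 with hG1
  set G2 : M := cj (algebraMap F Ω z ^ 2 * al) g0 g1 g2 with hG2
  have e0 : G0 = algebraMap L M g0 + algebraMap L M g1 * A + algebraMap L M g2 * A ^ 2 := by
    rw [hG0, hA]; unfold cj; simp only [map_pow]
  have e1 : G1 = algebraMap L M g0 + algebraMap L M g1 * (ζ * A) + algebraMap L M g2 * (ζ * A) ^ 2 := by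
    rw [hG1, hA, hζdef]; unfold cj; simp only [map_pow, map_mul]
  have e2 : G2 = algebraMap L M g0 + algebraMap L M g1 * (ζ ^ 2 * A) +
      algebraMap L M g2 * (ζ ^ 2 * A) ^ 2 := by
    rw [hG2, hA, hζdef]; unfold cj; simp only [map_pow, map_mul]
  have hprod : G0 * G1 * G2 = algebraMap Ω M (algebraMap F Ω x) := by
    rw [e0, e1, e2, Pool.Agent.Helper740.Special.n3_prod _ _ _ _ _ hζ]
    have h2 : A ^ 3 = algebraMap L M (algebraMap F L a) := by
      rw [hA, ← map_pow, hal, m.compat]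
    rw [h2, m.compat, ← hg]
    unfold N3
    simp only [map_sub, map_add, map_mul, map_pow, map_ofNat]
  have hxM : algebraMap Ω M (algebraMap F Ω x) ≠ 0 := by
    rw [Ne, map_eq_zero, map_eq_zero]; exact hx
  have hne : G0 * G1 * G2 ≠ 0 := by rw [hprod]; exact hxM
  have hne2 : G2 ≠ 0 := right_ne_zero_of_mul hne
  have hne01 : G0 * G1 ≠ 0 := left_ne_zero_of_mul hne
  have hne0 : G0 ≠ 0 := left_ne_zero_of_mul hne01
  have hDD0 : (0 : Place Ω M →₀ ℤ) ≤ DD G0 G1 := by
    intro P
    change (0 : ℤ) ≤ (polar G0 ⊔ polar (G0 * G1)) P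
    rw [Finsupp.sup_apply]
    exact le_sup_of_le_left (polar_nonneg G0 P)
  have hDD := eq_zero_of_ddeg hDD0 hneg
  have hreg : ∀ P : Place Ω M, P.Reg G0 ∧ P.Reg (G0 * G1) := by
    intro P
    have h1 : (polar G0 ⊔ polar (G0 * G1)) P = 0 := by
      have h2 := congrArg (fun D : Place Ω M →₀ ℤ => D P) hDD
      exact h2
    rw [Finsupp.sup_apply, polar_apply, polar_apply] at h1
    constructor
    · right; omega
    · right; omega
  obtain ⟨c0, hc0⟩ := exists_const_of_reg (fun P => (hreg P).1)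
  obtain ⟨c01, hc01⟩ := exists_const_of_reg (fun P => (hreg P).2)
  have hc1 : G1 = algebraMap Ω M (c01 / c0) := by
    rw [map_div₀, ← hc01, ← hc0, mul_div_cancel_left₀ _ hne0]
  have hc2 : G2 = algebraMap Ω M (algebraMap F Ω x / c01) := by
    rw [map_div₀, ← hc01, ← hprod, mul_div_cancel_left₀ _ hne01]
  have h3M : (3 : M) ≠ 0 := by
    haveI : CharZero M := charZero_of_injective_algebraMap (algebraMap Ω M).injective
    norm_num
  -- the coefficients are constants
  have k0 : algebraMap L M g0 = algebraMap Ω M ((c0 + c01 / c0 + algebraMap F Ω x / c01) / 3) := by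
    rw [map_div₀, map_add, map_add, ← hc0, ← hc1, ← hc2, map_ofNat, eq_div_iff h3M, e0, e1, e2]
    linear_combination (-(algebraMap L M g1 * A) - (algebraMap L M g2 * A ^ 2) * (ζ ^ 2 - ζ + 1)) * hζ
  have k1 : algebraMap L M g1 = algebraMap Ω M ((c0 + algebraMap F Ω z ^ 2 * (c01 / c0) +
      algebraMap F Ω z * (algebraMap F Ω x / c01)) / (3 * al)) := by
    rw [map_div₀, map_add, map_add, map_mul, map_mul, map_mul, map_pow, ← hc0, ← hc1, ← hc2,
      map_ofNat, eq_div_iff (mul_ne_zero h3M hA0), e0, e1, e2]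
    linear_combination (-(algebraMap L M g0) - (algebraMap L M g1 * A) * (2 * (ζ - 1))
      - (algebraMap L M g2 * A ^ 2) * (ζ ^ 3 - ζ + 1)) * hζ
  have k2 : algebraMap L M g2 = algebraMap Ω M ((c0 + algebraMap F Ω z * (c01 / c0) +
      algebraMap F Ω z ^ 2 * (algebraMap F Ω x / c01)) / (3 * al ^ 2)) := by
    rw [map_div₀, map_add, map_add, map_mul, map_mul, map_mul, map_pow, map_pow, ← hc0, ← hc1, ← hc2,
      map_ofNat, eq_div_iff (mul_ne_zero h3M (pow_ne_zero 2 hA0)), e0, e1, e2]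
    linear_combination (-(algebraMap L M g0) - (algebraMap L M g1 * A) * (ζ ^ 2 - ζ + 1)
      - (algebraMap L M g2 * A ^ 2) * (ζ - 1) * (ζ ^ 3 + 2)) * hζ
  have hF : ∀ (g : L) (γ : Ω), algebraMap L M g = algebraMap Ω M γ → ∃ f : F, g = algebraMap F L f := by
    intro g γ h
    have h1 : γ ∈ (algebraMap F Ω).range := by
      apply SF.mem_range_of_fixed
      intro σ
      apply (algebraMap Ω M).injective
      rw [← m.act_const, ← h, m.act_L]
    obtain ⟨f, hf⟩ := h1
    refine ⟨f, ?_⟩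
    apply (algebraMap L M).injective
    rw [h, ← hf, m.compat]
  obtain ⟨f0, hf0⟩ := hF _ _ k0
  obtain ⟨f1, hf1⟩ := hF _ _ k1
  obtain ⟨f2, hf2⟩ := hF _ _ k2
  apply hns
  refine ⟨f0, f1, f2, ?_⟩
  apply (algebraMap F L).injective
  rw [← hg, hf0, hf1, hf2]
  unfold N3
  simp only [map_sub, map_add, map_mul, map_pow, map_ofNat]

end Pool.Agent.Helper740.C3
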