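import Pool.Agent.Helper740.D5.ModelM
import Pool.Agent.SF.Model
import Pool.Agent.Helper379.SFGal

/-! The model `M` for an absolutely irreducible polynomial. -/

set_option autoImplicit false
set_option linter.all false
set_option linter.overlappingInstances false

open Polynomial Module FF SF
open scoped Polynomial.Bivariate

namespace Pool.Agent.Helper740.RegExt

theorem ev_mem {K M : Type*} [Field K] [Field M] [Algebra K M] (B : Subfield M) {ξ η : M}
    (hK : ∀ c : K, algebraMap K M c ∈ B) (h1 : ξ ∈ B) (h2 : η ∈ B) (P : K[X][Y]) :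
    ev (algebraMap K M) ξ η P ∈ B := by
  have h : ∀ p : K[X], p.eval₂ (algebraMap K M) ξ ∈ B := by
    intro p
    induction p using Polynomial.induction_on' with
    | add p q hp hq => rw [eval₂_add]; exact add_mem hp hq
    | monomial n a => rw [eval₂_monomial]; exact mul_mem (hK a) (pow_mem h1 n)
  induction P using Polynomial.induction_on' with
  | add p q hp hq => rw [map_add]; exact add_mem hp hq
  | monomial n a =>
    have h3 : ev (algebraMap K M) ξ η (monomial n a) = a.eval₂ (algebraMap K M) ξ * η ^ n := by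
      simp [ev]
    rw [h3]
    exact mul_mem (h a) (pow_mem h2 n)

theorem isFF_of_gen {K M : Type*} [Field K] [Field M] [Algebra K M] {ξ η : M} {G : K[X][Y]}
    (hξ : Transcendental K ξ) (hG0 : G ≠ 0) (hG : ev (algebraMap K M) ξ η G = 0)
    (hgen : Gen (algebraMap K M) ξ η) : IsFF K M := by
  apply IsFF.of_finite hξ
  let A := IntermediateField.adjoin K {ξ}
  have hξA : ξ ∈ A := IntermediateField.mem_adjoin_simple_self K ξ
  let φ : K[X] →+* A := eval₂RingHom (algebraMap K A) ⟨ξ, hξA⟩
  have hφ : (algebraMap A M).comp φ = eval₂RingHom (algebraMap K M) ξ := by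
    ext x
    · simp [φ]
    · simp [φ]
  have hφinj : Function.Injective φ := by
    rw [injective_iff_map_eq_zero]
    intro p hp
    have h1 : (eval₂RingHom (algebraMap K M) ξ) p = 0 := by
      rw [← hφ, RingHom.comp_apply, hp, map_zero]
    exact transcendental_iff.1 hξ p h1
  have hint : IsIntegral A η := by
    apply IsAlgebraic.isIntegral
    refine ⟨G.map φ, (Polynomial.map_ne_zero_iff hφinj).2 hG0, ?_⟩
    rw [aeval_def, eval₂_map, hφ]
    exact hG
  have htop : IntermediateField.adjoin A {η} = ⊤ := by
    rw [eq_top_iff]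
    intro y _
    obtain ⟨P, Q, _, rfl⟩ := hgen y
    have h1 : ∀ P, ev (algebraMap K M) ξ η P ∈ (IntermediateField.adjoin A {η}).toSubfield := by
      intro P
      apply ev_mem
      · intro c
        exact (IntermediateField.adjoin A {η}).algebraMap_mem (algebraMap K A c)
      · exact (IntermediateField.adjoin A {η}).algebraMap_mem ⟨ξ, hξA⟩
      · exact IntermediateField.mem_adjoin_simple_self A η
    exact div_mem (h1 P) (h1 Q)
  have h1 : FiniteDimensional A (IntermediateField.adjoin A {η}) :=
    IntermediateField.adjoin.finiteDimensional hint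
  rw [htop] at h1
  exact Module.Finite.equiv (IntermediateField.topEquiv (F := A) (E := M)).toLinearEquiv

theorem exists_model_poly {F Ω : Type} [Field F] [Field Ω] [Algebra F Ω] [CharZero F]
    [IsAlgClosed Ω] {G : F[X][Y]} (hirr : Irreducible (bc (algebraMap F Ω) G))
    (hpos : 0 < G.natDegree) :
    ∃ (L M : Type) (_ : Field L) (_ : Algebra F L) (_ : Field M) (_ : Algebra Ω M)
      (_ : Algebra L M) (m : Model F Ω L M) (ξ η : L), Transcendental F ξ ∧ IsFF F L ∧
      IsFF Ω M ∧ ev (algebraMap F L) ξ η G = 0 ∧ Gen (algebraMap F L) ξ η := by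
  classical
  have hirrF : Irreducible G := irreducible_of_bc _ hirr
  have hposΩ : 0 < (bc (algebraMap F Ω) G).natDegree := by rwa [natDegree_bc]
  obtain ⟨L, iL, aL, ξ, η, hξ, hGL, hgen⟩ := exists_field hirrF hpos
  obtain ⟨M, iM, aM, ξ', η', hξ', hGM, hgen'⟩ := exists_field hirr hposΩ
  -- kernels
  let g : F →+* M := (algebraMap Ω M).comp (algebraMap F Ω)
  have hk1 : ∀ H, ev (algebraMap F L) ξ η H = 0 ↔ G ∣ H := by
    intro H
    constructor
    · exact dvd_of_ev_eq_zero _ (fun p hp => transcendental_iff.1 hξ p hp) hirrF hpos hGL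
    · rintro ⟨K, rfl⟩
      rw [map_mul, hGL, zero_mul]
  have hk2 : ∀ H, ev (algebraMap Ω M) ξ' η' H = 0 ↔ bc (algebraMap F Ω) G ∣ H := by
    intro H
    constructor
    · exact dvd_of_ev_eq_zero _ (fun p hp => transcendental_iff.1 hξ' p hp) hirr hposΩ hGM
    · rintro ⟨K, rfl⟩
      rw [map_mul, hGM, zero_mul]
  have hGg : ev g ξ' η' G = 0 := by rw [← ev_bc]; exact hGM
  have hk3 : ∀ H, ev g ξ' η' H = 0 ↔ G ∣ H := by
    intro H
    constructor
    · refine dvd_of_ev_eq_zero _ ?_ hirrF hpos hGg
      intro p hp
      have h1 : (p.map (algebraMap F Ω)).eval₂ (algebraMap Ω M) ξ' = 0 := by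
        rw [eval₂_map]; exact hp
      have h2 := transcendental_iff.1 hξ' _ h1
      exact (Polynomial.map_eq_zero_iff (algebraMap F Ω).injective).1 h2
    · rintro ⟨K, rfl⟩
      rw [map_mul, hGg, zero_mul]
  obtain ⟨ψ, hψ1, hψ2, hψ3⟩ := exists_lift hgen g ξ' η' (fun H => (hk1 H).trans (hk3 H).symm)
  letI : Algebra L M := ψ.toAlgebra
  have hLM : ∀ l, algebraMap L M l = ψ l := fun l => rfl
  -- the action
  have hbcσ : ∀ σ : Ω ≃ₐ[F] Ω, bc (σ : Ω →+* Ω) (bc (algebraMap F Ω) G) = bc (algebraMap F Ω) G := by
    intro σ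
    rw [bc_bc]
    congr 2
    ext c
    simp
  have hker : ∀ (σ : Ω ≃ₐ[F] Ω) H, ev (algebraMap Ω M) ξ' η' H = 0 ↔
      ev ((algebraMap Ω M).comp (σ : Ω →+* Ω)) ξ' η' H = 0 := by
    intro σ H
    rw [← ev_bc, hk2, hk2]
    constructor
    · intro h
      have h1 := map_dvd (bc (σ : Ω →+* Ω)) h
      rwa [hbcσ] at h1
    · intro h
      have h1 := map_dvd (bc ((σ⁻¹ : Ω ≃ₐ[F] Ω) : Ω →+* Ω)) h
      rw [hbcσ, bc_bc] at h1
      have h2 : (((σ⁻¹ : Ω ≃ₐ[F] Ω) : Ω →+* Ω)).comp (σ : Ω →+* Ω) = RingHom.id Ω := by
        ext c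
        exact σ.symm_apply_apply c
      rw [h2] at h1
      have h3 : bc (RingHom.id Ω) H = H := by ext i j; simp
      rwa [h3] at h1
  have hact : ∀ σ : Ω ≃ₐ[F] Ω, ∃ φ : M →+* M, (∀ c, φ (algebraMap Ω M c) = algebraMap Ω M (σ c)) ∧
      φ ξ' = ξ' ∧ φ η' = η' := fun σ => exists_lift hgen' _ ξ' η' (hker σ)
  choose φ hφ1 hφ2 hφ3 using hact
  have hφmul : ∀ σ τ : Ω ≃ₐ[F] Ω, φ (σ * τ) = (φ σ).comp (φ τ) := by
    intro σ τ
    apply hgen'.hom_ext
    · intro c
      rw [hφ1, RingHom.comp_apply, hφ1, hφ1]; rfl
    · rw [hφ2, RingHom.comp_apply, hφ2, hφ2]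
    · rw [hφ3, RingHom.comp_apply, hφ3, hφ3]
  have hφone : φ 1 = RingHom.id M := by
    apply hgen'.hom_ext
    · intro c
      rw [hφ1]; rfl
    · rw [hφ2]; rfl
    · rw [hφ3]; rfl
  let act : (Ω ≃ₐ[F] Ω) →* (M ≃+* M) :=
    { toFun := fun σ => RingEquiv.ofRingHom (φ σ) (φ σ⁻¹)
        (by rw [← hφmul, mul_inv_cancel, hφone]) (by rw [← hφmul, inv_mul_cancel, hφone])
      map_one' := by
        ext y
        change φ 1 y = y
        rw [hφone]; rfl
      map_mul' := fun σ τ => by
        ext y
        change φ (σ * τ) y = φ σ (φ τ y)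
        rw [hφmul]; rfl }
  have hactφ : ∀ σ y, act σ y = φ σ y := fun σ y => rfl
  have hactL : ∀ (σ : Ω ≃ₐ[F] Ω) (l : L), act σ (algebraMap L M l) = algebraMap L M l := by
    intro σ l
    have h1 : (φ σ).comp ψ = ψ := by
      apply hgen.hom_ext
      · intro c
        rw [RingHom.comp_apply, hψ1]
        change φ σ (algebraMap Ω M (algebraMap F Ω c)) = algebraMap Ω M (algebraMap F Ω c)
        rw [hφ1, AlgEquiv.commutes]
      · rw [RingHom.comp_apply, hψ2, hφ2]
      · rw [RingHom.comp_apply, hψ3, hφ3]
    exact congrArg (fun f : L →+* M => f l) h1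
  have hindep : ∀ {ι : Type} (v : ι → L), LinearIndependent F v →
      LinearIndependent Ω (fun i => algebraMap L M (v i)) := by
    intro ι v hv
    rw [linearIndependent_iff']
    have key : ∀ n : ℕ, ∀ s : Finset ι, s.card = n → ∀ c : ι → Ω,
        ∑ i ∈ s, c i • algebraMap L M (v i) = 0 → ∀ i ∈ s, c i = 0 := by
      intro n
      induction n using Nat.strong_induction_on with
      | _ n ih =>
        intro s hs c hc i0 hi0
        by_contra hne
        let c' : ι → Ω := fun i => c i / c i0
        have hc' : ∑ i ∈ s, c' i • algebraMap L M (v i) = 0 := by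
          have h1 : ∑ i ∈ s, c' i • algebraMap L M (v i) =
              (c i0)⁻¹ • ∑ i ∈ s, c i • algebraMap L M (v i) := by
            rw [Finset.smul_sum]
            apply Finset.sum_congr rfl
            intro i _
            rw [smul_smul]
            congr 1
            simp only [c']
            rw [div_eq_inv_mul]
          rw [h1, hc, smul_zero]
        have hfix : ∀ i ∈ s, ∀ σ : Ω ≃ₐ[F] Ω, σ (c' i) = c' i := by
          intro i hi σ
          by_cases hii : i = i0
          · rw [hii]
            simp only [c']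
            rw [div_self hne, map_one]
          have h1 : ∑ i ∈ s, σ (c' i) • algebraMap L M (v i) = 0 := by
            have h2 := congrArg (act σ) hc'
            rw [map_sum, map_zero] at h2
            rw [← h2]
            apply Finset.sum_congr rfl
            intro i _
            rw [Algebra.smul_def, Algebra.smul_def, map_mul, hactL, hactφ, hφ1]
          have h3 : ∑ i ∈ s.erase i0, (σ (c' i) - c' i) • algebraMap L M (v i) = 0 := by
            have h4 : ∑ i ∈ s, (σ (c' i) - c' i) • algebraMap L M (v i) = 0 := by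
              simp only [sub_smul]
              rw [Finset.sum_sub_distrib, h1, hc', sub_zero]
            rw [← Finset.sum_erase_add _ _ hi0] at h4
            have h5 : σ (c' i0) - c' i0 = 0 := by
              simp only [c']
              rw [div_self hne, map_one, sub_self]
            rwa [h5, zero_smul, add_zero] at h4
          have h6 := ih (s.erase i0).card (by rw [← hs]; exact Finset.card_erase_lt_of_mem hi0)
            (s.erase i0) rfl (fun i => σ (c' i) - c' i) h3 i (Finset.mem_erase.2 ⟨hii, hi⟩)
          exact sub_eq_zero.1 h6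
        have hF : ∀ i ∈ s, ∃ f : F, algebraMap F Ω f = c' i := by
          intro i hi
          exact SF.mem_range_of_fixed (fun σ => hfix i hi σ)
        let f : ι → F := fun i => if hi : i ∈ s then (hF i hi).choose else 0
        have hf : ∀ i ∈ s, algebraMap F Ω (f i) = c' i := by
          intro i hi
          simp only [f, dif_pos hi]
          exact (hF i hi).choose_spec
        have h7 : ∑ i ∈ s, f i • v i = 0 := by
          apply (algebraMap L M).injective
          rw [map_sum, map_zero, ← hc']
          apply Finset.sum_congr rfl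
          intro i hi
          rw [Algebra.smul_def, map_mul, ← hf i hi, Algebra.smul_def]
          congr 1
          rw [hLM, hψ1]; rfl
        have h8 := (linearIndependent_iff'.1 hv) s f h7 i0 hi0
        have h9 := hf i0 hi0
        rw [h8, map_zero] at h9
        simp only [c'] at h9
        rw [div_self hne] at h9
        exact one_ne_zero h9.symm
    intro s c hc i hi
    exact key s.card s rfl c hc i hi
  have hspan : ∀ P : Polynomial (Polynomial Ω), ev (algebraMap Ω M) ξ' η' P ∈
      Submodule.span Ω (Set.range (algebraMap L M)) := by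
    intro P
    induction P using Polynomial.induction_on' with
    | add p q hp hq => rw [map_add]; exact add_mem hp hq
    | monomial n a =>
      induction a using Polynomial.induction_on' with
      | add p q hp hq => rw [map_add, map_add]; exact add_mem hp hq
      | monomial i c =>
        rw [ev_monomial]
        have h1 : algebraMap Ω M c * ξ' ^ i * η' ^ n = c • algebraMap L M (ξ ^ i * η ^ n) := by
          rw [Algebra.smul_def, map_mul, map_pow, map_pow, hLM, hLM, hψ2, hψ3, mul_assoc]
        rw [h1]
        exact Submodule.smul_mem _ _ (Submodule.subset_span ⟨_, rfl⟩)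
  refine ⟨L, M, iL, aL, iM, aM, inferInstance, ?_, ξ, η, hξ, ?_, ?_, hGL, hgen⟩
  · exact
    { compat := fun c => (hψ1 c).symm
      act := act
      act_const := fun σ c => hφ1 σ c
      act_L := hactL
      indep := hindep
      frac := fun f => by
        obtain ⟨P, Q, hQ, rfl⟩ := hgen' f
        exact ⟨_, _, hspan P, hspan Q, hQ, rfl⟩ }
  · exact isFF_of_gen hξ hirrF.ne_zero hGL hgen
  · exact isFF_of_gen hξ' hirr.ne_zero hGM hgen'

end Pool.Agent.Helper740.RegExt
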