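import Pool.Agent.Helper18.Step.Gal

/-! Field lemmas for the rank count. -/

set_option autoImplicit false

open IntermediateField Step

namespace Pool.Agent.Helper740.Rank

variable {F Ω : Type*} [Field F] [Field Ω] [Algebra F Ω]

theorem ratio_ind {T ι : Type*} [Field T] [Algebra T Ω] [Fintype ι] [DecidableEq ι] {a : ι → Ω}
    (ha : AlgebraicIndependent T a) (k0 : ι) :
    AlgebraicIndependent T (fun k : {k // k ≠ k0} => a k / a k0) := by
  classical
  let w : Option {k // k ≠ k0} → Ω := fun o => o.elim (a k0) (fun k => a k / a k0)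
  have h0 : a k0 ≠ 0 := ha.ne_zero k0
  have hw : AlgebraicIndependent T w := by
    apply span_ind ha
    · intro i
      have h1 : a k0 ∈ adjoin T (Set.range w) := subset_adjoin _ _ ⟨none, rfl⟩
      by_cases hi : i = k0
      · rw [hi]
        exact isAlgebraic_algebraMap (⟨a k0, h1⟩ : adjoin T (Set.range w))
      · have h2 : a i / a k0 ∈ adjoin T (Set.range w) := subset_adjoin _ _ ⟨some ⟨i, hi⟩, rfl⟩
        have h3 : a i ∈ adjoin T (Set.range w) := by
          have := mul_mem h2 h1
          rwa [div_mul_cancel₀ _ h0] at this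
        exact isAlgebraic_algebraMap (⟨a i, h3⟩ : adjoin T (Set.range w))
    · rw [Fintype.card_option, Fintype.card_subtype_compl, Fintype.card_subtype_eq]
      have : 0 < Fintype.card ι := Fintype.card_pos_iff.2 ⟨k0⟩
      omega
  exact hw.comp (some) (Option.some_injective _)

theorem ind_mono {K K' : IntermediateField F Ω} (h : K' ≤ K) {ι : Type*} {x : ι → Ω}
    (hx : AlgebraicIndependent K x) : AlgebraicIndependent K' x := by
  let _ : Algebra K' K := (IntermediateField.inclusion h).toAlgebra
  have : IsScalarTower K' K Ω := IsScalarTower.of_algebraMap_eq (fun _ => rfl)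
  exact hx.restrictScalars (IntermediateField.inclusion h).injective

theorem ind_cl {K : IntermediateField F Ω} {ι κ : Type*} {x : ι → Ω} {y : κ → Ω}
    (h : AlgebraicIndependent K (Sum.elim y x)) :
    AlgebraicIndependent (cl F ((K : Set Ω) ∪ Set.range x)) y := by
  have h1 := (AlgebraicIndependent.sumElim_iff.1 h).2
  have h2 : ∀ z ∈ Algebra.adjoin K (Set.range x), z ∈ cl F ((K : Set Ω) ∪ Set.range x) := by
    intro z hz
    rw [mem_cl_union]
    exact isAlgebraic_algebraMap (⟨z, algebra_adjoin_le_adjoin _ _ hz⟩ : adjoin K (Set.range x))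
  let _ : Algebra (Algebra.adjoin K (Set.range x)) (cl F ((K : Set Ω) ∪ Set.range x)) :=
    RingHom.toAlgebra
      { toFun := fun z => ⟨z.1, h2 _ z.2⟩
        map_one' := rfl
        map_mul' := fun _ _ => rfl
        map_zero' := rfl
        map_add' := fun _ _ => rfl }
  have : IsScalarTower (Algebra.adjoin K (Set.range x)) (cl F ((K : Set Ω) ∪ Set.range x)) Ω :=
    IsScalarTower.of_algebraMap_eq (fun _ => rfl)
  have : Algebra.IsAlgebraic (Algebra.adjoin K (Set.range x))
      (cl F ((K : Set Ω) ∪ Set.range x)) := by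
    constructor
    rintro ⟨z, hz⟩
    rw [mem_cl_union, IntermediateField.isAlgebraic_adjoin_iff] at hz
    rw [← isAlgebraic_algHom_iff (IsScalarTower.toAlgHom (Algebra.adjoin K (Set.range x))
      (cl F ((K : Set Ω) ∪ Set.range x)) Ω) Subtype.val_injective]
    exact hz
  exact h1.extendScalars _

/-- independence of two stacked families -/
theorem ind_tower {K : IntermediateField F Ω} {ι κ : Type*} {x : ι → Ω} {y : κ → Ω}
    (hx : AlgebraicIndependent F x) (hxK : ∀ i, x i ∈ K) (hy : AlgebraicIndependent K y) :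
    AlgebraicIndependent F (Sum.elim y x) := by
  apply hx.sumElim_of_tower (S := K) _ hy
  rintro _ ⟨i, rfl⟩
  exact ⟨⟨x i, hxK i⟩, rfl⟩

end Pool.Agent.Helper740.Rank
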