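import Pool.Agent.Helper740.D5.C3Main
import Pool.Agent.Helper51.SF.Top

/-! S02124 from LOC and GP. -/

set_option autoImplicit false
set_option linter.all false
set_option linter.overlappingInstances false

open Polynomial Module FF SF TensorProduct Pool.Agent.Helper51.SFinal

namespace Pool.Agent.Helper740.C3

theorem S02124_of_LOC_GP (hLOC : LOCStmt) (hGP : GPStmt) :
    ¬ (∀ (K : Type) [Field K] (D₁ D₂ : Type) [DivisionRing D₁] [DivisionRing D₂]
    [Algebra K D₁] [Algebra K D₂],
    Algebra.IsCentral K D₁ → Algebra.IsCentral K D₂ →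
    Module.finrank K D₁ = 9 → Module.finrank K D₂ = 9 →
    (∀ (L : Type) [Field L] [Algebra K L], Algebra.trdeg K L ≤ 1 →
      (Nonempty ((L ⊗[K] D₁) ≃ₐ[L] Matrix (Fin 3) (Fin 3) L) ↔
       Nonempty ((L ⊗[K] D₂) ≃ₐ[L] Matrix (Fin 3) (Fin 3) L))) →
    Nonempty (D₂ ≃ₐ[K] D₁) ∨ Nonempty (D₂ ≃ₐ[K] D₁ᵐᵒᵖ)) := by
  refine S02124_of_C3 ?_
  intro k _ _ z x hk E _ _ _ hE
  haveI : Uncountable (LaurentSeries k) := uncountable_laurent k
  haveI : Uncountable E := (algebraMap (LaurentSeries k) E).injective.uncountable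
  haveI : CharZero (AlgebraicClosure E) :=
    charZero_of_injective_algebraMap (algebraMap E (AlgebraicClosure E)).injective
  exact C3Hyp_of hLOC hGP hk hE (AlgebraicClosure E)

end Pool.Agent.Helper740.C3
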